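import Pool.Statements.S00265
import Pool.Agent.Mg.S00265.Gdb521c

set_option autoImplicit false
open Pool Pool.MP_75f689_ag

namespace Pool.Agent.S00265

/-- For every complex polynomial f in 3 variables with a singular point at 0 whose local Milnor algebra is finite-dimensional, twice the Milnor number is less than three times the Tjurina number, i.e. mu/tau < 3/2. -/
theorem result :
    ∀ f : MvPolynomial (Fin 3) ℂ,
      MvPolynomial.constantCoeff f = 0 →
      (∀ i : Fin 3, MvPolynomial.constantCoeff (MvPolynomial.pderiv i f) = 0) →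
      Module.Finite ℂ (MvPowerSeries (Fin 3) ℂ ⧸
        Ideal.span (Set.range (fun i : Fin 3 =>
          ((MvPolynomial.pderiv i f : MvPolynomial (Fin 3) ℂ) : MvPowerSeries (Fin 3) ℂ)))) →
      2 * Module.finrank ℂ (MvPowerSeries (Fin 3) ℂ ⧸
        Ideal.span (Set.range (fun i : Fin 3 =>
          ((MvPolynomial.pderiv i f : MvPolynomial (Fin 3) ℂ) : MvPowerSeries (Fin 3) ℂ)))) <
      3 * Module.finrank ℂ (MvPowerSeries (Fin 3) ℂ ⧸
        Ideal.span (insert ((f : MvPolynomial (Fin 3) ℂ) : MvPowerSeries (Fin 3) ℂ)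
          (Set.range (fun i : Fin 3 =>
            ((MvPolynomial.pderiv i f : MvPolynomial (Fin 3) ℂ) : MvPowerSeries (Fin 3) ℂ))))) := by
  intro f hf hd hfin
  have e1 : Ideal.span (Set.range (fun i : Fin 3 =>
      ((MvPolynomial.pderiv i f : MvPolynomial (Fin 3) ℂ) : MvPowerSeries (Fin 3) ℂ))) =
      (Ideal.span (Set.range fun i => MvPolynomial.pderiv i f)).map
        Pool.Agent.MP_75f689_ag.toS := by
    rw [Ideal.map_span, ← Set.range_comp]
    rfl
  have e2 : Ideal.span (insert ((f : MvPolynomial (Fin 3) ℂ) : MvPowerSeries (Fin 3) ℂ)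
      (Set.range (fun i : Fin 3 =>
        ((MvPolynomial.pderiv i f : MvPolynomial (Fin 3) ℂ) : MvPowerSeries (Fin 3) ℂ)))) =
      (Ideal.span (Set.range fun i => MvPolynomial.pderiv i f) ⊔ Ideal.span {f}).map
        Pool.Agent.MP_75f689_ag.toS := by
    rw [Ideal.span_insert, e1, Ideal.map_sup, Ideal.map_span _ {f}, Set.image_singleton, sup_comm]
    rfl
  rw [e2]
  rw [e1] at hfin ⊢
  exact Pool.Agent.MP_75f689_ag.main f hf hd hfin

end Pool.Agent.S00265
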