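import Pool.Statements.S02291
import Pool.Agent.Mg.F92191bp.G9695df
import Pool.Agent.MP_92191b_al.K3.H9
import Pool.Agent.MP_92191b_al.K3.PL3
import Pool.Agent.Mg.F92191bp.G695593
import Pool.Agent.Mg.F92191bp.G9dc04d

set_option autoImplicit false
open Pool Pool.MP_92191b_al

namespace Pool.Agent.S02291

/-- For all k ≥ 3, m ≥ 2: every non-uniform self-map f of [k]^m, together with the wreath product S_k wr S_m in product action, generates a monoid containing a constant map. -/
theorem result :
    ∀ k m : ℕ, 3 ≤ k → 2 ≤ m →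
    ∀ f : (Fin m → Fin k) → (Fin m → Fin k),
      (∃ a b : Fin m → Fin k,
        (Finset.univ.filter (fun x => f x = f a)).card ≠
          (Finset.univ.filter (fun x => f x = f b)).card) →
      ∃ c ∈ Submonoid.closure
          ({g : Function.End (Fin m → Fin k) |
              ∃ (σ : Fin m → Equiv.Perm (Fin k)) (π : Equiv.Perm (Fin m)),
                g = fun x i => σ i (x (π i))} ∪ {(f : Function.End (Fin m → Fin k))}),
        ∃ y : Fin m → Fin k, ∀ x, c x = y := by
  rintro k m hk - f ⟨a, b, hab⟩
  by_contra hc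
  refine hab (Pool.Agent.MP_92191b_al.X.unifX hk ?_ f (fun c h h' => hc ⟨c, h, h'⟩) a b)
  rcases Nat.eq_or_lt_of_le hk with rfl | hk4
  · open Pool.Agent.MP_92191b_al.K3 in
    exact a3 (hThm9 sys (loc pl3) prop (fin odd kraft two (ball two) sz))
  · exact Pool.Agent.MP_92191b_al.X4.thmA_ge4 hk4

end Pool.Agent.S02291
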