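import Pool.Statements.S02692
import Pool.Agent.MP_ae7646_al.Factor

set_option autoImplicit false
open Pool Pool.MP_ae7646_al

namespace Pool.Agent.S02692

/-- The negation of the preceding statement: For finite-dimensional Hopf algebras A, H over any field, Hopf algebras E that factorize as A·H (injective Hopf maps with a⊗h ↦ a·h bijective) fall into finitely many isomorphism classes: any sequence of them has two isomorphic members. -/
theorem result :
    ¬ (∀ (k : Type) [Field k] (A H : Type) [Ring A] [HopfAlgebra k A] [Ring H] [HopfAlgebra k H],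
      FiniteDimensional k A → FiniteDimensional k H →
      ∀ (E : ℕ → Type) [∀ m, Ring (E m)] [∀ m, HopfAlgebra k (E m)],
        (∀ m, ∃ (i : BialgHom k A (E m)) (j : BialgHom k H (E m)),
            Function.Injective i ∧ Function.Injective j ∧
            Function.Bijective
              (TensorProduct.lift
                (((LinearMap.mul k (E m)).comp i.toLinearMap).compl₂ j.toLinearMap))) →
        ∃ m m' : ℕ, m ≠ m' ∧ Nonempty (BialgEquiv k (E m) (E m'))) := by
  intro h
  obtain ⟨m, m', hne, ⟨φ⟩⟩ := h ℂ (Pool.Agent.MP_ae7646_al.Q2 (Pool.Agent.MP_ae7646_al.D4 ℂ).par)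
    (Pool.Agent.MP_ae7646_al.Q2 (Pool.Agent.MP_ae7646_al.D4 ℂ).par) inferInstance inferInstance
    (fun m => Pool.Agent.MP_ae7646_al.Q4 ((Pool.Agent.MP_ae7646_al.D4 ℂ).sq (m : ℂ)).par)
    (fun m => ⟨Pool.Agent.MP_ae7646_al.bi1 _ _, Pool.Agent.MP_ae7646_al.bi2 _ _,
      Pool.Agent.MP_ae7646_al.bi1_inj _ _, Pool.Agent.MP_ae7646_al.bi2_inj _ _,
      Pool.Agent.MP_ae7646_al.mm_bij _ _⟩)
  have h2 := Pool.Agent.MP_ae7646_al.sq_eq_of_equiv4 two_ne_zero _ _ φ
  have h3 : m * m = m' * m' := by exact_mod_cast h2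
  exact hne (Nat.mul_self_inj.1 h3)

end Pool.Agent.S02692
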