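import Pool.Statements.S03381
import Pool.Agent.Mg.S03381.Gf1d2bb

set_option autoImplicit false
open Pool Pool.MP_e5f6e8_al

namespace Pool.Agent.S03381

/-- There are g,h ≥ 2 and a finitely generated group Γ with an exact sequence 1 → π₁(genus g surface) → Γ → π₁(genus h surface) → 1 such that Γ's word metric satisfies Gromov's four-point condition for some δ, i.e. Γ is hyperbolic. -/
theorem result :
    ∃ g h : ℕ, 2 ≤ g ∧ 2 ≤ h ∧ ∃ (n : ℕ) (rels : Set (FreeGroup (Fin n))),
      ∃ (i : PresentedGroup ({(List.ofFn (fun k : Fin g =>
              (FreeGroup.of (Sum.inl k) * FreeGroup.of (Sum.inr k) *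
                (FreeGroup.of (Sum.inl k))⁻¹ * (FreeGroup.of (Sum.inr k))⁻¹ :
                FreeGroup (Fin g ⊕ Fin g)))).prod} :
              Set (FreeGroup (Fin g ⊕ Fin g))) →* PresentedGroup rels)
        (p : PresentedGroup rels →* PresentedGroup ({(List.ofFn (fun k : Fin h =>
              (FreeGroup.of (Sum.inl k) * FreeGroup.of (Sum.inr k) *
                (FreeGroup.of (Sum.inl k))⁻¹ * (FreeGroup.of (Sum.inr k))⁻¹ :
                FreeGroup (Fin h ⊕ Fin h)))).prod} :
              Set (FreeGroup (Fin h ⊕ Fin h)))),
        Function.Injective i ∧ Function.Surjective p ∧ i.range = p.ker ∧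
        ∃ δ : ℕ, ∀ x y z w : PresentedGroup rels,
          sInf {m : ℕ | ∃ l : List (Fin n × Bool), l.length = m ∧
              (l.map (fun e : Fin n × Bool => if e.2 = true
                then (PresentedGroup.of e.1 : PresentedGroup rels)
                else (PresentedGroup.of e.1 : PresentedGroup rels)⁻¹)).prod = x⁻¹ * y}
          + sInf {m : ℕ | ∃ l : List (Fin n × Bool), l.length = m ∧
              (l.map (fun e : Fin n × Bool => if e.2 = true
                then (PresentedGroup.of e.1 : PresentedGroup rels)
                else (PresentedGroup.of e.1 : PresentedGroup rels)⁻¹)).prod = z⁻¹ * w}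
          ≤ max
            (sInf {m : ℕ | ∃ l : List (Fin n × Bool), l.length = m ∧
              (l.map (fun e : Fin n × Bool => if e.2 = true
                then (PresentedGroup.of e.1 : PresentedGroup rels)
                else (PresentedGroup.of e.1 : PresentedGroup rels)⁻¹)).prod = x⁻¹ * z}
            + sInf {m : ℕ | ∃ l : List (Fin n × Bool), l.length = m ∧
              (l.map (fun e : Fin n × Bool => if e.2 = true
                then (PresentedGroup.of e.1 : PresentedGroup rels)
                else (PresentedGroup.of e.1 : PresentedGroup rels)⁻¹)).prod = y⁻¹ * w})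
            (sInf {m : ℕ | ∃ l : List (Fin n × Bool), l.length = m ∧
              (l.map (fun e : Fin n × Bool => if e.2 = true
                then (PresentedGroup.of e.1 : PresentedGroup rels)
                else (PresentedGroup.of e.1 : PresentedGroup rels)⁻¹)).prod = x⁻¹ * w}
            + sInf {m : ℕ | ∃ l : List (Fin n × Bool), l.length = m ∧
              (l.map (fun e : Fin n × Bool => if e.2 = true
                then (PresentedGroup.of e.1 : PresentedGroup rels)
                else (PresentedGroup.of e.1 : PresentedGroup rels)⁻¹)).prod = y⁻¹ * z})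
          + 2 * δ := by
  obtain ⟨h, hh, G, _, n, s, i, p, h1, h2, h3, h4, h5⟩ := Pool.Agent.E5f.main_group
  exact Pool.Agent.E5f.final_pack (by norm_num) hh G n s i p h1 h2 h3 h4 h5

end Pool.Agent.S03381
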