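import Pool.Statements.S03503
import Pool.Agent.Mg.Ff0649b.G523867

set_option autoImplicit false
open Pool Pool.MP_f0649b_al

namespace Pool.Agent.S03503

/-- For every finite solvable group G, the k-th derived subgroup is trivial, where k is the number of distinct dimensions of irreducible complex representations of G; that is, derived length ≤ ∣cd(G)∣. -/
theorem result :
    ∀ (G : Type) [Group G] [Finite G], IsSolvable G →
      derivedSeries G
        {d : ℕ | ∃ V : FDRep ℂ G, CategoryTheory.Simple V ∧ Module.finrank ℂ V = d}.ncard = ⊥ := by
  intro G _ _ h
  have : Group.IsSolvable G := h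
  rw [← Pool.Agent.MP_f0649b_al.cd_eq G]
  exact Pool.Agent.MP_f0649b_al.F.isaacs_seitz G

end Pool.Agent.S03503
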