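import Pool.Statements.S03541
import Pool.Agent.MP_f411ce_al.Group

set_option autoImplicit false
open Pool Pool.MP_f411ce_al

namespace Pool.Agent.S03541

/-- The Artin group with three generators and the braid relation aba=bab for every pair (type Ã2) acts on some connected, locally finite Helly graph by automorphisms, with finite vertex stabilisers and finitely many vertex orbits. -/
theorem result :
    ∃ (V : Type) (G : SimpleGraph V)
      (ρ : PresentedGroup {r : FreeGroup (Fin 3) | ∃ i j : Fin 3, i ≠ j ∧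
              r = FreeGroup.of i * FreeGroup.of j * FreeGroup.of i *
                (FreeGroup.of j * FreeGroup.of i * FreeGroup.of j)⁻¹} →* (G ≃g G)),
      G.Connected ∧
      (∀ v : V, (G.neighborSet v).Finite) ∧
      (∀ S : Set (V × ℕ),
          (∀ p ∈ S, ∀ q ∈ S, ∃ x : V, G.dist p.1 x ≤ p.2 ∧ G.dist q.1 x ≤ q.2) →
          ∃ x : V, ∀ p ∈ S, G.dist p.1 x ≤ p.2) ∧
      (∀ v : V, {g | ρ g v = v}.Finite) ∧
      ∃ F : Finset V, ∀ v : V, ∃ g, ∃ w ∈ F, ρ g w = v := by
  classical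
  let e0 : MP_f411ce_al.cay.Dt := ⟨(1, 1 * MP_f411ce_al.ev 0), 0, rfl⟩
  refine ⟨MP_f411ce_al.cay.Dt, MP_f411ce_al.cay.H, MP_f411ce_al.ρ, MP_f411ce_al.cay.connected e0,
    MP_f411ce_al.cay.nbr_finite MP_f411ce_al.cay_fin,
    MP_f411ce_al.cay.H_helly MP_f411ce_al.cay_fin e0, ?_, ?_⟩
  · intro v
    refine (Set.finite_singleton 1).subset ?_
    intro g hg
    have key : ∀ g : MP_f411ce_al.G, MP_f411ce_al.ρ g v = v → g = 1 := by
      intro g hg
      have h1 : g * v.1.1 = v.1.1 := congrArg (fun e : MP_f411ce_al.cay.Dt => e.1.1) hg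
      exact mul_eq_right.1 h1
    exact key g hg
  · refine ⟨Finset.univ.image fun s : MP_f411ce_al.L =>
      (⟨(1, 1 * MP_f411ce_al.ev s), s, rfl⟩ : MP_f411ce_al.cay.Dt), ?_⟩
    rintro ⟨⟨x, y⟩, s, hs⟩
    refine ⟨x, _, Finset.mem_image_of_mem _ (Finset.mem_univ s), ?_⟩
    apply Subtype.ext
    show (x * 1, x * (1 * MP_f411ce_al.ev s)) = (x, y)
    rw [mul_one, one_mul]
    exact congrArg _ hs.symm

end Pool.Agent.S03541
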