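import Pool.Statements.S03908
import Pool.Agent.MP_160a79_an.NoRotund

set_option autoImplicit false
universe u
open Pool Pool.MP_160a79_an

namespace Pool.Agent.S03908

/-- The negation of the preceding statement: Every nonseparable reflexive real Banach space has an equivalent norm N such that any sequence with N(x_n)=1 and N(x_n+x_m) tending to 2 as n,m go to infinity is convergent. -/
theorem result :
    ¬ (∀ (X : Type u) [NormedAddCommGroup X] [NormedSpace ℝ X] [CompleteSpace X],
      Function.Surjective (NormedSpace.inclusionInDoubleDual ℝ X) →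
      ¬ TopologicalSpace.SeparableSpace X →
      ∃ N : X → ℝ,
        (∀ x y : X, N (x + y) ≤ N x + N y) ∧
        (∀ (c : ℝ) (x : X), N (c • x) = |c| * N x) ∧
        (∃ a b : ℝ, 0 < a ∧ 0 < b ∧ ∀ x : X, a * ‖x‖ ≤ N x ∧ N x ≤ b * ‖x‖) ∧
        ∀ s : ℕ → X, (∀ n, N (s n) = 1) →
          Filter.Tendsto (fun p : ℕ × ℕ => N (s p.1 + s p.2)) Filter.atTop (nhds 2) →
          ∃ x : X, Filter.Tendsto s Filter.atTop (nhds x)) := by
  intro h
  obtain ⟨inst, hwf⟩ := exists_wellFoundedLT (ULift.{u} ℝ)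
  have hunc : Uncountable (WithTop (ULift.{u} ℝ)) :=
    Function.Injective.uncountable (WithTop.coe_injective.comp ULift.up_injective)
  let _ : LinearOrder (WithTop (ULift.{u} ℝ)) := @WithTop.linearOrder _ inst
  have := Pool.Agent.MP_160a79_an.complete (I := WithTop (ULift.{u} ℝ))
  obtain ⟨N, h1, h2, ⟨a, b, ha, _, hab⟩, h3⟩ :=
    h (Pool.Agent.MP_160a79_an.BX (WithTop (ULift.{u} ℝ)))
      Pool.Agent.MP_160a79_an.reflexive Pool.Agent.MP_160a79_an.not_separable
  obtain ⟨s, hs1, hs2, hs3⟩ := Pool.Agent.MP_160a79_an.no_two_rotund N h1 h2 ha hab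
  exact hs3 (h3 s hs1 hs2)

end Pool.Agent.S03908
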