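import Pool.Statements.S04289
import Pool.Agent.Mg.F334d28p.G363529

set_option autoImplicit false
open Pool Pool.MP_334d28_an

namespace Pool.Agent.S04289

/-- Take h, g holomorphic on the unit disk with h(0)=g(0)=0, h'(0)=1, g'(0)=0, such that h+conj(g) is injective and ∣g'∣<∣h'∣ on the disk. Then the second Taylor coefficient h''(0)/2 of h has modulus at most 5/2. -/
theorem result :
    ∀ h g : ℂ → ℂ,
      DifferentiableOn ℂ h (Metric.ball (0 : ℂ) 1) →
      DifferentiableOn ℂ g (Metric.ball (0 : ℂ) 1) →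
      h 0 = 0 → g 0 = 0 → deriv h 0 = 1 → deriv g 0 = 0 →
      Set.InjOn (fun z => h z + (starRingEnd ℂ) (g z)) (Metric.ball (0 : ℂ) 1) →
      (∀ z ∈ Metric.ball (0 : ℂ) 1, ‖deriv g z‖ < ‖deriv h z‖) →
      ‖iteratedDeriv 2 h 0 / 2‖ ≤ 5 / 2 :=
  fun h g hh hg _ _ h1 g1 hi hs => Pool.Agent.MP_334d28_an.K.all_st h g hh hg h1 g1 hi hs

end Pool.Agent.S04289
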