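import Pool.Statements.S04315
import Pool.Agent.Mg.F14ad9d.G13691e

set_option autoImplicit false
open Pool Pool.MP_357fb4_an

namespace Pool.Agent.S04315

/-- If a_1..a_k lie in a Hardy field, have polynomial growth, and every nonzero real combination stays infinitely far from integer polynomials, then every invertible probability-preserving system and positive-measure A admit a prime n with A ∩ ⋂ T^{-⌊a_i(n)⌋}A of positive measure. -/
theorem result :
  ∀ (k : ℕ) (a : Fin k → ℝ → ℝ),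
    (∃ R : Subring (Filter.Germ (Filter.atTop : Filter ℝ) ℝ),
      (∀ g ∈ R, g ≠ 0 → ∃ h ∈ R, g * h = 1) ∧
      (∀ f : ℝ → ℝ, (↑f : Filter.Germ (Filter.atTop : Filter ℝ) ℝ) ∈ R →
        (∀ᶠ t in Filter.atTop, DifferentiableAt ℝ f t) ∧
        (↑(deriv f) : Filter.Germ (Filter.atTop : Filter ℝ) ℝ) ∈ R) ∧
      (∀ i, (↑(a i) : Filter.Germ (Filter.atTop : Filter ℝ) ℝ) ∈ R)) →
    (∀ i, ∃ d : ℕ, ∀ᶠ t in Filter.atTop, |a i t| ≤ t ^ d) →
    (∀ c : Fin k → ℝ, c ≠ 0 → ∀ p : Polynomial ℤ,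
      Filter.Tendsto (fun t : ℝ => |(∑ i, c i * a i t) - Polynomial.aeval t p|)
        Filter.atTop Filter.atTop) →
    ∀ (X : Type) [MeasurableSpace X] (μ : MeasureTheory.Measure X)
      [MeasureTheory.IsProbabilityMeasure μ] (T : Equiv.Perm X),
      Measurable (⇑T) → Measurable (⇑T.symm) →
      MeasureTheory.MeasurePreserving (⇑T) μ μ →
      ∀ A : Set X, MeasurableSet A → 0 < μ A →
        ∃ n : ℕ, n.Prime ∧
          0 < μ (A ∩ ⋂ i : Fin k, (⇑(T ^ ⌊a i (n : ℝ)⌋)) ⁻¹' A) := by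
  open Pool.Agent.MP_357fb4_an MeasureTheory in
  intro k a ⟨R, h1, h2, h3⟩ hgr hfar X _ μ _ T hT hT' hp A hA h0
  by_contra hno
  obtain ⟨H, hH⟩ := hext R h1 h2
  obtain ⟨Y, _, ν, _, S, B, hB, hB0, erg, hz⟩ := erg_red μ T hT hT' hp A hA h0
    (fun n i => ⌊a i (n : ℝ)⌋) {n | n.Prime} fun n hn =>
      le_zero_iff.1 (not_lt.1 fun h => hno ⟨n, hn, h⟩)
  have hb : B1 (B.indicator fun _ => (1 : ℂ)) :=
    ⟨measurable_const.indicator hB, fun y => by by_cases h : y ∈ B <;> simp [h]⟩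
  have key := main_erg H (fun i => hH _ (h3 i)) hgr hfar S erg hb (fun _ => hb) fun n hn => by
    refine integral_eq_zero_of_ae ?_
    filter_upwards [measure_eq_zero_iff_ae_notMem.1 (hz n hn)] with y hy
    by_cases h : y ∈ B
    · obtain ⟨i, hi⟩ : ∃ i, S.act ⌊a i (n : ℝ)⌋ y ∉ B := by
        simpa [h] using hy
      exact mul_eq_zero_of_right _
        (Finset.prod_eq_zero (Finset.mem_univ i) (Set.indicator_of_notMem hi _))
    · simp [h]
  have h4 : ∫ y, B.indicator (fun _ => (1 : ℂ)) y ∂ν ≠ 0 := by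
    rw [integral_indicator_const _ hB]
    simpa [Measure.real, ENNReal.toReal_eq_zero_iff] using hB0.ne'
  exact mul_ne_zero h4 (Finset.prod_ne_zero_iff.2 fun _ _ => h4) key

end Pool.Agent.S04315
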