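import Pool.Statements.S04566
import Pool.Agent.Mg.F4998f1.G9124a7

set_option autoImplicit false
open Pool Pool.MP_4998f1_an

namespace Pool.Agent.S04566

/- The counterexample. Let R be the closed annulus 1/2 ≤ |s| ≤ 2, T the unit circle, D the closed
unit disc, and M = (∂R × T × D) ∪ (R × T × {0}) with coordinates (s, w, z). The uniform algebra
consists of the continuous functions on M that are holomorphic in s on the slice z = 0 and
holomorphic in z over ∂R; its Shilov boundary lies in ∂R × T × T (two invariant clopen pieces, M is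
connected, so condition 4 fails). The homeomorphism is φ(s, w, z) = (s, conj w, exp(i) z), which
has no periodic point with |z| = 1, and the weight a = s w is invertible in the algebra.
The algebra acts by multiplication on the bounded functions on
K = (∂R × T × D) ∪ {w = 1, |s - 1| ≥ 1/4, z = 0} ∪ {w = -1, |s - 1| ≤ 1/4, z = 0}
    ∪ {|s - 1| = 1/4, z = 0},
and U is composition with φ. A function of the algebra without zeros on K has no zeros on M
(continuity principle along the tube |s - 1| = 1/4 from w = -1 to w = 1), which is condition 3.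
The number 1 is in the resolvent set of aU, while the character (1, 1, 0) of the algebra is fixed
by φ and sends a to 1, so 1 is in the spectrum of the weighted automorphism aT. -/

/-- The negation of the preceding statement: For a closed commutative operator algebra A on a Banach space with ‖a²‖=‖a‖², and invertible U with UAU⁻¹=A, if periodic characters are meagre in the Shilov boundary, σ(U) lies in the unit circle, and A is inverse-closed, then σ(aU) on X equals the spectrum of b↦a·UbU⁻¹ on A. -/
theorem result :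
    ¬ (∀ (X : Type) [NormedAddCommGroup X] [NormedSpace ℂ X] [CompleteSpace X]
    (A : Subalgebra ℂ (X →L[ℂ] X)) (U : (X →L[ℂ] X)ˣ)
    (S : Set (WeakDual.characterSpace ℂ A)) (P : Set (WeakDual.characterSpace ℂ A)),
    IsClosed (A : Set (X →L[ℂ] X)) →
    (∀ a ∈ A, ∀ b ∈ A, a * b = b * a) →
    (∀ a ∈ A, ‖a * a‖ = ‖a‖ ^ 2) →
    (∀ a ∈ A, U.val * a * U.inv ∈ A) →
    (∀ a ∈ A, U.inv * a * U.val ∈ A) →
    S = ⋂₀ {K : Set (WeakDual.characterSpace ℂ A) | IsClosed K ∧
          ∀ a : A, ∃ χ ∈ K, ∀ ψ : WeakDual.characterSpace ℂ A, ‖ψ a‖ ≤ ‖χ a‖} →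
    P = {χ : WeakDual.characterSpace ℂ A | ∃ n : ℕ, 0 < n ∧
          ∀ (a : X →L[ℂ] X) (ha : a ∈ A) (b : X →L[ℂ] X) (hb : b ∈ A),
            b = (U ^ n).val * a * (U ^ n).inv → χ (⟨b, hb⟩ : A) = χ (⟨a, ha⟩ : A)} →
    IsMeagre {x : S | x.val ∈ P} →
    spectrum ℂ U.val ⊆ Metric.sphere (0 : ℂ) 1 →
    (∀ (a : X →L[ℂ] X) (ha : a ∈ A), IsUnit a → IsUnit (⟨a, ha⟩ : A)) →
    ∀ a ∈ A, ∀ μ : ℂ,
      (μ ∈ spectrum ℂ (a * U.val) ↔
        ¬ ∀ c ∈ A, ∃! b, b ∈ A ∧ c = μ • b - a * (U.val * b * U.inv))) := by
  intro H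
  open Pool.Agent.MP_4998f1_an in
  have h := H X Aop Uop _ _ isClosed_Aop Aop_comm Aop_norm Aop_conj Aop_conj' rfl rfl
    (by
      convert IsMeagre.empty using 1
      rw [Set.eq_empty_iff_forall_notMem]
      intro x hx
      exact not_periodic x.1 (Set.mem_sInter.1 x.2 _ boundary_mem) hx)
    spectrum_U Aop_inv (mulOp aY) (mulOp_mem aY_mem) 1
  exact Pool.Agent.MP_4998f1_an.one_notMem_spectrum (h.2 Pool.Agent.MP_4998f1_an.not_solvable)

end Pool.Agent.S04566
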