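import Pool.Statements.S06914
import Pool.Agent.MP_02cac4_co.Final

set_option autoImplicit false
open MeasureTheory
open Pool Pool.MP_02cac4_co

namespace Pool.Agent.S06914

/-- The negation of the preceding statement: For all large d, for a residual set of o-symmetric convex bodies C in R^d, a lattice is a local maximum of the packing density under small trace-zero perturbations exactly when the density drops at least linearly in the perturbation norm. -/
theorem result :
    ¬ (∃ d₀ : ℕ, ∀ d : ℕ, d₀ ≤ d →
    {C : {K : ConvexBody (EuclideanSpace ℝ (Fin d)) // ∀ x ∈ K, -x ∈ K} |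
      (interior (C.1 : Set (EuclideanSpace ℝ (Fin d)))).Nonempty →
      ∀ b : Fin d → EuclideanSpace ℝ (Fin d), LinearIndependent ℝ b →
        ((∃ ε > (0 : ℝ), ∀ A : EuclideanSpace ℝ (Fin d) →L[ℝ] EuclideanSpace ℝ (Fin d),
            LinearMap.trace ℝ (EuclideanSpace ℝ (Fin d))
              (A : EuclideanSpace ℝ (Fin d) →ₗ[ℝ] EuclideanSpace ℝ (Fin d)) = 0 →
            ‖A‖ < ε →
            (⨅ z : {z : Fin d → ℤ // z ≠ 0},
                gauge (C.1 : Set (EuclideanSpace ℝ (Fin d)))
                  (∑ i, (z.1 i : ℝ) • (b i + A (b i)))) ^ d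
              * (volume (C.1 : Set (EuclideanSpace ℝ (Fin d)))).toReal
              / (2 ^ d * (volume (parallelepiped (fun i => b i + A (b i)))).toReal)
            ≤ (⨅ z : {z : Fin d → ℤ // z ≠ 0},
                gauge (C.1 : Set (EuclideanSpace ℝ (Fin d)))
                  (∑ i, (z.1 i : ℝ) • b i)) ^ d
              * (volume (C.1 : Set (EuclideanSpace ℝ (Fin d)))).toReal
              / (2 ^ d * (volume (parallelepiped b)).toReal))
        ↔
         (∃ c > (0 : ℝ), ∃ ε > (0 : ℝ), ∀ A : EuclideanSpace ℝ (Fin d) →L[ℝ] EuclideanSpace ℝ (Fin d),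
            LinearMap.trace ℝ (EuclideanSpace ℝ (Fin d))
              (A : EuclideanSpace ℝ (Fin d) →ₗ[ℝ] EuclideanSpace ℝ (Fin d)) = 0 →
            ‖A‖ < ε →
            (⨅ z : {z : Fin d → ℤ // z ≠ 0},
                gauge (C.1 : Set (EuclideanSpace ℝ (Fin d)))
                  (∑ i, (z.1 i : ℝ) • (b i + A (b i)))) ^ d
              * (volume (C.1 : Set (EuclideanSpace ℝ (Fin d)))).toReal
              / (2 ^ d * (volume (parallelepiped (fun i => b i + A (b i)))).toReal)
            ≤ (1 - c * ‖A‖) *
              ((⨅ z : {z : Fin d → ℤ // z ≠ 0},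
                gauge (C.1 : Set (EuclideanSpace ℝ (Fin d)))
                  (∑ i, (z.1 i : ℝ) • b i)) ^ d
              * (volume (C.1 : Set (EuclideanSpace ℝ (Fin d)))).toReal
              / (2 ^ d * (volume (parallelepiped b)).toReal))))}
    ∈ residual {K : ConvexBody (EuclideanSpace ℝ (Fin d)) // ∀ x ∈ K, -x ∈ K}) := by
  rintro ⟨d₀, h⟩
  exact Pool.Agent.MP_02cac4_co.not_residual (d := d₀ + 3) (by omega) (h (d₀ + 3) (by omega))

end Pool.Agent.S06914
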