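import Pool.Statements.S07795
import Pool.Agent.Mg.F29e935p.Gddacfe

set_option autoImplicit false
open Pool Pool.MP_29e935_co

namespace Pool.Agent.S07795

/-- Every finite r-regular simple graph with r>1, other than two disjoint triangles, has a bijective labeling of vertices and edges by 1..(n+m) such that each vertex label plus its incident edge labels gives the same sum. -/
theorem result :
  ∀ (V : Type) [Fintype V] [DecidableEq V] (G : SimpleGraph V) [DecidableRel G.Adj] (r : ℕ),
    1 < r → G.IsRegularOfDegree r →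
    ¬ (r = 2 ∧ Fintype.card V = 6 ∧ ¬ G.Connected) →
    ∃ (h : V → ℕ) (g : Sym2 V → ℕ) (k : ℕ),
      Function.Injective h ∧ Set.InjOn g G.edgeSet ∧
      (∀ v, ∀ e ∈ G.edgeSet, h v ≠ g e) ∧
      (∀ v, 1 ≤ h v ∧ h v ≤ Fintype.card V + Fintype.card G.edgeSet) ∧
      (∀ e ∈ G.edgeSet, 1 ≤ g e ∧ g e ≤ Fintype.card V + Fintype.card G.edgeSet) ∧
      ∀ v, h v + ∑ w ∈ G.neighborFinset v, g s(v, w) = k :=
  fun V _ _ G _ r =>
    Pool.Agent.MP_29e935_co.Six.all_regularE Pool.Agent.MP_29e935_co.Six.gtd V G r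

end Pool.Agent.S07795
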