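import Pool.Statements.S08565
import Pool.Agent.MP_4985b1_co.Final

set_option autoImplicit false
open Pool Pool.MP_4985b1_co

namespace Pool.Agent.S08565

/-- There is c>0 such that every set of r≥2 plane points with no three collinear has at least c·r distinct segments between its points, every two of which share a point interior to both. -/
theorem result :
    ∃ c : ℝ, 0 < c ∧
      ∀ P : Finset (ℝ × ℝ), 2 ≤ P.card →
        (∀ x ∈ P, ∀ y ∈ P, ∀ z ∈ P, x ≠ y → y ≠ z → x ≠ z →
          ¬ Collinear ℝ ({x, y, z} : Set (ℝ × ℝ))) →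
        ∃ k : ℕ, ∃ a b : Fin k → ℝ × ℝ,
          (∀ i, a i ∈ P ∧ b i ∈ P ∧ a i ≠ b i) ∧
          Function.Injective (fun i => Sym2.mk (a i, b i)) ∧
          (∀ i j, i ≠ j →
            (openSegment ℝ (a i) (b i) ∩ openSegment ℝ (a j) (b j)).Nonempty) ∧
          c * (P.card : ℝ) ≤ (k : ℝ) :=
  Pool.Agent.MP_4985b1_co.q1_frozen

end Pool.Agent.S08565
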