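import Pool.Statements.S09303
import Pool.Agent.Mg.F5cfbf6.G387b34
import Pool.Agent.Mg.F5cfbf6.G52ca4d
import Pool.Agent.Mg.F5cfbf6.G807fc3
import Pool.Agent.Mg.F5cfbf6.Gd501be

set_option autoImplicit false
open Classical
open Pool Pool.MP_6a6613_co

namespace Pool.Agent.S09303

/-- There exist d ≥ 2 and a finite simplicial complex, homeomorphic to the (d−1)-sphere with n vertices, whose dual graph (facets adjacent when sharing d−1 vertices) has diameter at least 2(n−d). -/
theorem result :
    ∃ d n m : ℕ, 2 ≤ d ∧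
      ∃ K : Geometry.SimplicialComplex ℝ (EuclideanSpace ℝ (Fin m)),
        K.faces.Finite ∧
        K.vertices.ncard = n ∧
        Nonempty (K.space ≃ₜ Metric.sphere (0 : EuclideanSpace ℝ (Fin d)) 1) ∧
        (∀ s ∈ K.facets, s.card = d) ∧
        2 * (n - d) ≤
          (SimpleGraph.fromRel (fun s t : K.facets => (s.1 ∩ t.1).card + 1 = d)).diam := by
  exact MP_6a6613_co.target_of MP_6a6613_co.finalStmt MP_6a6613_co.sphStmt
    (MP_6a6613_co.bdStmt MP_6a6613_co.ballQStmt (MP_6a6613_co.pageStmt MP_6a6613_co.arcStmt)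
      MP_6a6613_co.bookStmt) MP_6a6613_co.modelStmt

end Pool.Agent.S09303
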