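import Pool.Statements.S09318
import Pool.Agent.MP_6b5009_co.Graph

set_option autoImplicit false
open Pool Pool.MP_6b5009_co

namespace Pool.Agent.S09318

/-- The negation of the preceding statement: For every finite graph G and k ≥ 1: if every k-fold coloring of G using the minimum number of colors uses each color on exactly α(G) vertices, then the (k+1)-fold chromatic number equals the k-fold chromatic number plus the chromatic number. -/
theorem result :
    ¬ (∀ (n : ℕ) (G : SimpleGraph (Fin n)) (k : ℕ), 1 ≤ k →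
      (∀ f : Fin n → Finset (Fin (sInf {m : ℕ | ∃ g : Fin n → Finset (Fin m),
            (∀ v, (g v).card = k) ∧ ∀ u v, G.Adj u v → Disjoint (g u) (g v)})),
          (∀ v, (f v).card = k) →
          (∀ u v, G.Adj u v → Disjoint (f u) (f v)) →
          ∀ c, (Finset.univ.filter (fun v => c ∈ f v)).card = G.indepNum) →
      ((sInf {m : ℕ | ∃ g : Fin n → Finset (Fin m),
            (∀ v, (g v).card = k + 1) ∧ ∀ u v, G.Adj u v → Disjoint (g u) (g v)} : ℕ) : ℕ∞)
        = ((sInf {m : ℕ | ∃ g : Fin n → Finset (Fin m),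
            (∀ v, (g v).card = k) ∧ ∀ u v, G.Adj u v → Disjoint (g u) (g v)} : ℕ) : ℕ∞)
          + G.chromaticNumber) := by
  intro h
  have h2 := Pool.Agent.MP_6b5009_co.chi2_eq
  have h3 := Pool.Agent.MP_6b5009_co.chi3_le
  have h4 := Pool.Agent.MP_6b5009_co.four_le_chromaticNumber
  have key := h 12 Pool.Agent.MP_6b5009_co.G 2 (by norm_num)
    (fun f hc hd c => Pool.Agent.MP_6b5009_co.saturated _ h2 f hc hd c)
  rw [h2] at key
  have h9 : ((6 : ℕ) : ℕ∞) + Pool.Agent.MP_6b5009_co.G.chromaticNumber ≤ ((9 : ℕ) : ℕ∞) := by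
    rw [← key]
    exact_mod_cast h3
  have h10 : ((6 : ℕ) : ℕ∞) + 4 ≤ ((9 : ℕ) : ℕ∞) := le_trans (add_le_add le_rfl h4) h9
  exact absurd h10 (by decide)

end Pool.Agent.S09318
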