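import Pool.Statements.S09345
import Pool.Agent.Mg.S09345.G986f23

set_option autoImplicit false
open Pool Pool.MP_6c8b06_co

namespace Pool.Agent.S09345

/-- For every prime d>2 and m≥1: the complete graph on m vertices splits into edge-disjoint copies of the d-dimensional cube exactly when m is 1 or (d+1)·2^(d-1) modulo d·2^d. -/
theorem result :
    ∀ d : ℕ, d.Prime → 2 < d → ∀ m : ℕ, 0 < m →
      ((∃ k : ℕ, ∃ φ : Fin k → (Fin d → Bool) → Fin m,
          (∀ i, Function.Injective (φ i)) ∧
          ∀ u v : Fin m, u ≠ v →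
            ∃! i : Fin k, ∃ x y : Fin d → Bool,
              hammingDist x y = 1 ∧ φ i x = u ∧ φ i y = v) ↔
        (m ≡ 1 [MOD d * 2 ^ d] ∨ m ≡ (d + 1) * 2 ^ (d - 1) [MOD d * 2 ^ d])) := by
  intro d hp h2 m hm
  exact Pool.Agent.MP_6c8b06_co.main_theorem d hp h2 m hm

end Pool.Agent.S09345
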