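import Pool.Statements.S09619
import Pool.Agent.Mg.F79429d.G997527

set_option autoImplicit false
open Pool Pool.MP_79429d_co

namespace Pool.Agent.S09619

/-- For every prime p at least 5 and every invertible square matrix A over the integers mod p, some vector x has all coordinates nonzero and A times x also has all coordinates nonzero. -/
theorem result :
    ∀ p : ℕ, p.Prime → 5 ≤ p →
      ∀ n : ℕ, ∀ A : Matrix (Fin n) (Fin n) (ZMod p), IsUnit A.det →
        ∃ x : Fin n → ZMod p, (∀ i, x i ≠ 0) ∧ ∀ i, A.mulVec x i ≠ 0 := by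
  intro p hp h5 n A hA
  have : Fact p.Prime := ⟨hp⟩
  obtain ⟨x, hx, hx'⟩ := Pool.Agent.AJT.exists_nowhere_zero (K := ZMod p) p ZMod.pow_card
    (by omega) (by simp) (fun i => A i)
    (Matrix.linearIndependent_rows_iff_isUnit.2 ((Matrix.isUnit_iff_isUnit_det A).2 hA))
  exact ⟨x, hx, fun i => hx' i⟩

end Pool.Agent.S09619
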