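import Pool.Statements.S09948
import Pool.Agent.Mg.S09948.Gb53af9

set_option autoImplicit false
open MeasureTheory
open Pool Pool.MP_888de5_co

namespace Pool.Agent.S09948

/-- The negation of the preceding statement: There is c>0 such that every nonempty open subset A of the unit square with area α contains the four corners of an axis-parallel rectangle of area at least c·α². -/
theorem result :
    ¬ (∃ c : ℝ, 0 < c ∧ ∀ A : Set (ℝ × ℝ), IsOpen A →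
      A ⊆ Set.Icc (0 : ℝ) 1 ×ˢ Set.Icc (0 : ℝ) 1 → A.Nonempty →
      ∃ x₁ x₂ y₁ y₂ : ℝ, x₁ < x₂ ∧ y₁ < y₂ ∧
        (x₁, y₁) ∈ A ∧ (x₁, y₂) ∈ A ∧ (x₂, y₁) ∈ A ∧ (x₂, y₂) ∈ A ∧
        c * ((volume A).toReal) ^ 2 ≤ (x₂ - x₁) * (y₂ - y₁)) := by
  rintro ⟨c, hc, h⟩
  obtain ⟨A, h1, h2, h3, h4⟩ := Pool.Agent.MP_888de5_co.no_constant c hc
  obtain ⟨x₁, x₂, y₁, y₂, hx, hy, a, b, d, e, hle⟩ := h A h1 h2 h3
  exact absurd (h4 x₁ x₂ y₁ y₂ hx hy a b d e) (not_lt.mpr hle)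

end Pool.Agent.S09948
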