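import Pool.Statements.S10158
import Pool.Agent.MP_920d98_co.Cx.Main

set_option autoImplicit false
open Pool Pool.MP_920d98_co

namespace Pool.Agent.S10158

/-- The negation of the preceding statement: For n ≥ 3 Jordan curves in the plane, each two crossing in exactly two points and no three through a point, the number of faces of the complement whose closure contains exactly three crossing points is at least n − 1. -/
theorem result :
    ¬ (∀ n : ℕ, 3 ≤ n → ∀ γ : Fin n → Circle → ℂ,
      (∀ i, Continuous (γ i) ∧ Function.Injective (γ i)) →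
      (∀ i j, i ≠ j →
        (Set.range (γ i) ∩ Set.range (γ j)).ncard = 2 ∧
        ∃ x ∈ Set.range (γ i) \ Set.range (γ j),
          ∃ y ∈ Set.range (γ i) \ Set.range (γ j),
            y ∉ connectedComponentIn (Set.range (γ j))ᶜ x) →
      (∀ i j k, i ≠ j → j ≠ k → i ≠ k →
        Set.range (γ i) ∩ Set.range (γ j) ∩ Set.range (γ k) = ∅) →
      n - 1 ≤ Set.ncard {F : Set ℂ |
        (∃ x, x ∉ (⋃ i, Set.range (γ i)) ∧
          F = connectedComponentIn (⋃ i, Set.range (γ i))ᶜ x) ∧
        (closure F ∩ {p : ℂ | ∃ i j, i ≠ j ∧ p ∈ Set.range (γ i) ∧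
          p ∈ Set.range (γ j)}).ncard = 3}) := by
  intro H
  obtain ⟨γ, h1, h2⟩ := Pool.Agent.MP_920d98_co.Cx.curves
  have h := H 10 (by norm_num) γ h1
  simp only [h2, Pool.Agent.MP_920d98_co.Cx.union, Pool.Agent.MP_920d98_co.Cx.points] at h
  have := (h (fun i j a => Pool.Agent.MP_920d98_co.Cx.cross i.2 j.2 (Fin.val_ne_of_ne a))
    fun i j k a b c => Pool.Agent.MP_920d98_co.Cx.triple (Fin.val_ne_of_ne a)
      (Fin.val_ne_of_ne b) (Fin.val_ne_of_ne c)).trans Pool.Agent.MP_920d98_co.Cx.count
  omega

end Pool.Agent.S10158
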