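import Pool.Statements.S11439
import Pool.Agent.Mg.Fcab9bb.Gbb3c56
import Pool.Agent.Mg.Fcab9bb.Gf9aacd

set_option autoImplicit false
open Pool Pool.MP_cab9bb_co

namespace Pool.Agent.S11439

/-- For every centrally symmetric planar convex body K, every k ≥ 2, and every convex body C covered by k translates of K, the translative covering density of K is at most k·area(K)/area(C). -/
theorem result :
    ∀ K : Set (EuclideanSpace ℝ (Fin 2)), IsCompact K → Convex ℝ K → (interior K).Nonempty →
      (∃ c : EuclideanSpace ℝ (Fin 2), ∀ x ∈ K, (2 : ℝ) • c - x ∈ K) →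
      ∀ k : ℕ, 2 ≤ k →
      ∀ C : Set (EuclideanSpace ℝ (Fin 2)), IsCompact C → Convex ℝ C → (interior C).Nonempty →
      ∀ t : Fin k → EuclideanSpace ℝ (Fin 2), C ⊆ ⋃ i, (fun x => t i + x) '' K →
        (⨅ T : Set (EuclideanSpace ℝ (Fin 2)),
            ⨅ (_ : (⋃ s ∈ T, (fun x => s + x) '' K) = Set.univ),
              Filter.liminf
                (fun r : ℝ =>
                  ((T ∩ Metric.ball (0 : EuclideanSpace ℝ (Fin 2)) r).encard : ENNReal)
                    * MeasureTheory.volume K
                    / MeasureTheory.volume (Metric.ball (0 : EuclideanSpace ℝ (Fin 2)) r))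
                Filter.atTop)
          ≤ (k : ENNReal) * MeasureTheory.volume K / MeasureTheory.volume C := by
  exact Pool.Agent.MP_cab9bb_co.reduce Pool.Agent.MP_cab9bb_co.finiteIneq

end Pool.Agent.S11439
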