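import Pool.Statements.S11598
import Pool.Agent.MP_d17781_co.NoPart
import Pool.Agent.MP_d17781_co.Conn

set_option autoImplicit false
open Pool Pool.MP_d17781_co

namespace Pool.Agent.S11598

/-- The negation of the preceding statement: For all s, t, every finite (s+t+1)-connected graph has its vertices split into two disjoint nonempty sets A, B with G[A] s-connected and G[B] t-connected. Here k-connected means more than k vertices and still connected after deleting any fewer than k vertices. -/
theorem result :
    ¬ (∀ (V : Type) [Fintype V] [DecidableEq V] (G : SimpleGraph V) (s t : ℕ),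
      (s + t + 1 < Fintype.card V ∧
        ∀ X : Finset V, X.card < s + t + 1 →
          (G.induce ((Finset.univ \ X : Finset V) : Set V)).Connected) →
      ∃ A B : Finset V, A.Nonempty ∧ B.Nonempty ∧ Disjoint A B ∧ A ∪ B = Finset.univ ∧
        (s < A.card ∧ ∀ X : Finset V, X ⊆ A → X.card < s →
          (G.induce ((A \ X : Finset V) : Set V)).Connected) ∧
        (t < B.card ∧ ∀ X : Finset V, X ⊆ B → X.card < t →
          (G.induce ((B \ X : Finset V) : Set V)).Connected)) := by
  intro h
  obtain ⟨A, B, _, _, hd, hu, hA, hB⟩ :=
    h Pool.Agent.MP_d17781_co.Vx Pool.Agent.MP_d17781_co.gr 52 52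
      ⟨by simp, fun X hX => Pool.Agent.MP_d17781_co.gr_connected hX⟩
  exact Pool.Agent.MP_d17781_co.no_partition hd hu hA hB

end Pool.Agent.S11598
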