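import Pool.Statements.S11659
import Pool.Agent.Mg.S11659.Gadf981

set_option autoImplicit false
open Pool Pool.MP_d347ac_co

namespace Pool.Agent.S11659

/-- For every ε>0, for all large n, every graph on n vertices with a crossing-free straight-line plane drawing has such a drawing whose vertices all lie on at most εn lines, i.e. the weak line cover number of planar graphs is o(n). -/
theorem result :
  ∀ ε : ℝ, 0 < ε → ∃ N : ℕ, ∀ n : ℕ, N ≤ n → ∀ G : SimpleGraph (Fin n),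
    (∃ p : Fin n → ℝ × ℝ, Function.Injective p ∧
      (∀ u v w : Fin n, G.Adj u v → w ≠ u → w ≠ v → p w ∉ segment ℝ (p u) (p v)) ∧
      (∀ u v x y : Fin n, G.Adj u v → G.Adj x y → s(u, v) ≠ s(x, y) →
        ∀ z ∈ segment ℝ (p u) (p v), z ∈ segment ℝ (p x) (p y) →
          ∃ w : Fin n, (w = u ∨ w = v) ∧ (w = x ∨ w = y) ∧ z = p w)) →
    ∃ p : Fin n → ℝ × ℝ, (Function.Injective p ∧
      (∀ u v w : Fin n, G.Adj u v → w ≠ u → w ≠ v → p w ∉ segment ℝ (p u) (p v)) ∧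
      (∀ u v x y : Fin n, G.Adj u v → G.Adj x y → s(u, v) ≠ s(x, y) →
        ∀ z ∈ segment ℝ (p u) (p v), z ∈ segment ℝ (p x) (p y) →
          ∃ w : Fin n, (w = u ∨ w = v) ∧ (w = x ∨ w = y) ∧ z = p w)) ∧
      ∃ k : ℕ, (k : ℝ) ≤ ε * n ∧ ∃ a b c : Fin k → ℝ, (∀ i, a i ≠ 0 ∨ b i ≠ 0) ∧
        ∀ v : Fin n, ∃ i : Fin k, a i * (p v).1 + b i * (p v).2 = c i := by
  exact Pool.Agent.MP_d347ac_co.H31.sublinear Pool.Agent.MP_d347ac_co.partA

end Pool.Agent.S11659
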