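import Pool.Statements.S12349
import Pool.Agent.Mg.S12349.Gf59a76
import Pool.Agent.Mg.S12349.G023979

set_option autoImplicit false
open Pool Pool.MP_f14165_co

namespace Pool.Agent.S12349

/-- For every ε>0, the rectangles of sides 1/(n+1) by 1/(n+2), n≥0 (total area 1), can be placed by plane isometries inside a square of area 1+ε with pairwise disjoint interiors. -/
theorem result :
    ∀ ε : ℝ, 0 < ε →
      ∃ f : ℕ → (EuclideanSpace ℝ (Fin 2) ≃ᵢ EuclideanSpace ℝ (Fin 2)),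
        (∀ n : ℕ,
          f n '' {x : EuclideanSpace ℝ (Fin 2) |
              0 ≤ x 0 ∧ x 0 ≤ 1 / ((n : ℝ) + 1) ∧ 0 ≤ x 1 ∧ x 1 ≤ 1 / ((n : ℝ) + 2)}
            ⊆ {x : EuclideanSpace ℝ (Fin 2) |
              0 ≤ x 0 ∧ x 0 ≤ Real.sqrt (1 + ε) ∧ 0 ≤ x 1 ∧ x 1 ≤ Real.sqrt (1 + ε)}) ∧
        (∀ n m : ℕ, n ≠ m →
          Disjoint
            (interior (f n '' {x : EuclideanSpace ℝ (Fin 2) |
              0 ≤ x 0 ∧ x 0 ≤ 1 / ((n : ℝ) + 1) ∧ 0 ≤ x 1 ∧ x 1 ≤ 1 / ((n : ℝ) + 2)}))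
            (interior (f m '' {x : EuclideanSpace ℝ (Fin 2) |
              0 ≤ x 0 ∧ x 0 ≤ 1 / ((m : ℝ) + 1) ∧ 0 ≤ x 1 ∧ x 1 ≤ 1 / ((m : ℝ) + 2)}))) :=
  Pool.Agent.MP_f14165_co.final_of_finite Pool.Agent.MP_f14165_co.finite_all

end Pool.Agent.S12349
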