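import Pool.Statements.S12429
import Pool.Agent.Mg.S12429.G982280

set_option autoImplicit false
open Pool Pool.MP_f5a786_co

namespace Pool.Agent.S12429

/-- Every finite projective plane of even order with a flag (∞, L∞) and an abelian collineation group fixing ∞ and L∞, regular on points off L∞ and on lines missing ∞, is isomorphic to the plane over a finite commutative semifield. -/
theorem result :
  ∀ (P L : Type) [Membership P L] [Configuration.ProjectivePlane P L] [Finite P] [Finite L],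
    Even (Configuration.ProjectivePlane.order P L) →
    ∀ (G : Type) [CommGroup G] (ρ : G →* Equiv.Perm P) (τ : G →* Equiv.Perm L)
      (pinf : P) (Linf : L),
      pinf ∈ Linf →
      (∀ (g : G) (p : P) (l : L), p ∈ l ↔ ρ g p ∈ τ g l) →
      (∀ g : G, ρ g pinf = pinf) →
      (∀ g : G, τ g Linf = Linf) →
      (∀ p q : P, p ∉ Linf → q ∉ Linf → ∃! g : G, ρ g p = q) →
      (∀ l m : L, pinf ∉ l → pinf ∉ m → ∃! g : G, τ g l = m) →
      ∃ (S : Type) (_ : NonAssocRing S) (_ : NoZeroDivisors S) (_ : Nontrivial S) (_ : Finite S),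
        (∀ a b : S, a * b = b * a) ∧
        ∃ (e : S × S ⊕ Option S ≃ P) (f : S × S ⊕ Option S ≃ L),
          ∀ x y m m' k : S,
            (e (Sum.inl (x, y)) ∈ f (Sum.inl (m, k)) ↔ m * x + y = k) ∧
            (e (Sum.inl (x, y)) ∈ f (Sum.inr (some k)) ↔ x = k) ∧
            (e (Sum.inl (x, y)) ∉ f (Sum.inr none)) ∧
            (e (Sum.inr (some m')) ∈ f (Sum.inl (m, k)) ↔ m' = m) ∧
            (e (Sum.inr (some m')) ∉ f (Sum.inr (some k))) ∧
            (e (Sum.inr (some m')) ∈ f (Sum.inr none)) ∧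
            (e (Sum.inr none) ∉ f (Sum.inl (m, k))) ∧
            (e (Sum.inr none) ∈ f (Sum.inr (some k))) ∧
            (e (Sum.inr none) ∈ f (Sum.inr none)) := by
  intro P L _ _ _ _ hev G _ ρ τ pinf Linf hinf hinc hp hl hP hL
  obtain ⟨l0, hl0⟩ := Configuration.Nondegenerate.exists_line (L := L) pinf
  have hne : l0 ≠ Linf := fun hh => hl0 (hh ▸ hinf)
  have hpos : 0 < Set.ncard {p : P | p ∈ l0 ∧ p ∉ Linf} := by
    rw [Pool.Agent.MP_f5a786_co.card_affine hne]
    exact (Configuration.ProjectivePlane.one_lt_order P L).le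
  obtain ⟨p0, hp0, hp1⟩ := Set.nonempty_of_ncard_ne_zero hpos.ne'
  have hp2 : pinf ≠ p0 := fun hh => hp1 (hh ▸ hinf)
  obtain ⟨v0, hv0, hv1⟩ := Pool.Agent.MP_f5a786_co.exists_join (L := L) hp2
  have hA : ∀ g, ρ g p0 ∉ Linf := fun g hg => hp1 ((hinc g p0 Linf).2 (by rw [hl]; exact hg))
  have hfix : ∀ g l, pinf ∈ τ g l ↔ pinf ∈ l := fun g l => by
    rw [hinc g pinf l, hp]
  refine Pool.Agent.MP_f5a786_co.plane_coord hev (A := Additive G)
    (fun a => ρ a.toMul p0) (fun a l => τ a.toMul l) pinf Linf l0 v0 hinf ?_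
    (fun b l => hfix _ l) (fun a => hA _) ?_ ?_ hl0 (by simpa using hp0) ?_ ?_ hv0
    (by simpa using hv1)
  · intro a b l
    rw [hinc b.toMul _ l, ← Equiv.Perm.mul_apply, ← map_mul]
    simp
  · intro p hp'
    obtain ⟨g, hg⟩ := (hP p0 p hp1 hp').exists
    exact ⟨Additive.ofMul g, hg⟩
  · intro a b hab
    exact Additive.toMul.injective ((hP p0 _ hp1 (hA b.toMul)).unique hab rfl)
  · intro l hl'
    obtain ⟨g, hg⟩ := (hL l0 l hl0 hl').exists
    exact ⟨Additive.ofMul g, hg⟩
  · intro a b hab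
    exact Additive.toMul.injective
      ((hL l0 _ hl0 (fun hh => hl0 ((hfix b.toMul l0).1 hh))).unique hab rfl)

end Pool.Agent.S12429
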