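import Pool.Statements.S12949
import Pool.Agent.MP_2c685a_gt.Topo

set_option autoImplicit false
open Pool Pool.MP_2c685a_gt

namespace Pool.Agent.S12949

/-- For n ≥ 3, residually many origin-symmetric convex bodies K in R^n (Hausdorff metric) have no finite sphere measure μ with 1/vol(K ∩ u^⊥) = ∫∣⟨u,v⟩∣dμ(v) for all unit u, i.e. IK is not a polar zonoid. -/
theorem result :
    ∀ n : ℕ, 3 ≤ n →
      ∀ᶠ K in residual
          {K : ConvexBody (EuclideanSpace ℝ (Fin n)) //
            ∀ x ∈ (K : Set (EuclideanSpace ℝ (Fin n))),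
              -x ∈ (K : Set (EuclideanSpace ℝ (Fin n)))},
        ¬ ∃ μ : MeasureTheory.Measure (EuclideanSpace ℝ (Fin n)),
            MeasureTheory.IsFiniteMeasure μ ∧
            μ (Metric.sphere (0 : EuclideanSpace ℝ (Fin n)) 1)ᶜ = 0 ∧
            ∀ u : EuclideanSpace ℝ (Fin n), ‖u‖ = 1 →
              (MeasureTheory.Measure.hausdorffMeasure ((n : ℝ) - 1)
                  ((K.1 : Set (EuclideanSpace ℝ (Fin n))) ∩
                    {x | inner ℝ u x = 0})).toReal *
                (∫ v, |inner ℝ u v| ∂μ) = 1 := by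
  intro n hn
  exact Pool.Agent.MP_2c685a_gt.main n hn

end Pool.Agent.S12949
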