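import Pool.Statements.S13015
import Pool.Agent.Mg.F36bcbe.Gf332cf

set_option autoImplicit false
open TopologicalSpace
open Pool Pool.MP_36bcbe_gt

namespace Pool.Agent.S13015

/-- There exist Hausdorff pseudocompact abelian topological groups G and H, each of whose closed subgroups is separable, such that G×H has a closed σ-compact subgroup that is not separable. -/
theorem result :
    ∃ (G H : Type) (_ : TopologicalSpace G) (_ : CommGroup G) (_ : IsTopologicalGroup G)
      (_ : T2Space G) (_ : TopologicalSpace H) (_ : CommGroup H) (_ : IsTopologicalGroup H)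
      (_ : T2Space H),
      (∀ f : G → ℝ, Continuous f → ∃ C : ℝ, ∀ x, |f x| ≤ C) ∧
      (∀ f : H → ℝ, Continuous f → ∃ C : ℝ, ∀ x, |f x| ≤ C) ∧
      (∀ S : Subgroup G, IsClosed (S : Set G) → SeparableSpace ↥S) ∧
      (∀ S : Subgroup H, IsClosed (S : Set H) → SeparableSpace ↥S) ∧
      ∃ S : Subgroup (G × H), IsClosed (S : Set (G × H)) ∧
        IsSigmaCompact (S : Set (G × H)) ∧ ¬ SeparableSpace ↥S := by
  classical
  have hI : Cardinal.mk (Cardinal.aleph 1).out = Cardinal.aleph 1 := Cardinal.mk_out _
  obtain ⟨G, H, hG, hH, hGH, hL⟩ := Pool.Agent.MP_36bcbe_gt.exists_groups hI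
  obtain ⟨h1, h2, h3⟩ := Pool.Agent.MP_36bcbe_gt.diag_props hI hG hH hGH
  refine ⟨Multiplicative G, Multiplicative H, inferInstance, inferInstance, inferInstance,
    inferInstanceAs (T2Space G), inferInstance, inferInstance, inferInstance,
    inferInstanceAs (T2Space H), (hL G (Or.inl rfl)).1, (hL H (Or.inr rfl)).1,
    fun S hS => (hL G (Or.inl rfl)).2 (S : Set (Multiplicative G)) S.one_mem
      (fun _ hx _ hy => S.mul_mem hx hy) hS,
    fun S hS => (hL H (Or.inr rfl)).2 (S : Set (Multiplicative H)) S.one_mem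
      (fun _ hx _ hy => S.mul_mem hx hy) hS,
    { carrier := {p | (Multiplicative.toAdd p.1).1 = (Multiplicative.toAdd p.2).1}
      mul_mem' := fun {a b} ha hb => congrArg₂ (· + ·) ha hb
      one_mem' := rfl
      inv_mem' := fun {a} ha => congrArg Neg.neg ha }, h1, h2, h3⟩

end Pool.Agent.S13015
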