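import Pool.Statements.S13116
import Pool.Agent.MP_48470b_gt.Run.Main

set_option autoImplicit false
open scoped Manifold ContDiff MeasureTheory
open Pool Pool.MP_48470b_gt

namespace Pool.Agent.S13116

/-- The negation of the preceding statement: Every smooth embedding of the 3-sphere into R^4 whose image is critical for Gaussian-weighted area under all smooth variations has image equal to a round sphere centered at the origin. -/
theorem result :
    ¬ (∀ f : Metric.sphere (0 : EuclideanSpace ℝ (Fin 4)) 1 → EuclideanSpace ℝ (Fin 4),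
    ContMDiff (𝓡 3) 𝓘(ℝ, EuclideanSpace ℝ (Fin 4)) ∞ f →
    (∀ x, Function.Injective (mfderiv (𝓡 3) 𝓘(ℝ, EuclideanSpace ℝ (Fin 4)) f x)) →
    Function.Injective f →
    (∀ F : ℝ × Metric.sphere (0 : EuclideanSpace ℝ (Fin 4)) 1 → EuclideanSpace ℝ (Fin 4),
      ContMDiff ((𝓘(ℝ, ℝ)).prod (𝓡 3)) 𝓘(ℝ, EuclideanSpace ℝ (Fin 4)) ∞ F →
      (∀ x, F (0, x) = f x) →
      HasDerivAt
        (fun t : ℝ => ∫ y in Set.range (fun x => F (t, x)), Real.exp (-‖y‖ ^ 2 / 4) ∂μH[3])
        0 0) →
    ∃ r : ℝ, 0 < r ∧ Set.range f = Metric.sphere 0 r) :=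
  Pool.Agent.MP_48470b_gt.Run.not_uniq

end Pool.Agent.S13116
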