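import Pool.Statements.S13655
import Pool.Agent.MP_9de622_gt.Graph

set_option autoImplicit false
open Pool Pool.MP_9de622_gt

namespace Pool.Agent.S13655

/-- There is a smooth injective immersion of the unit 3-sphere into R^5 such that the preimage of every closed half-space is connected or empty, and whose image lies in no affine hyperplane. -/
theorem result :
    ∃ f : (Fin 4 → ℝ) → (Fin 5 → ℝ),
      ContDiff ℝ ((⊤ : ℕ∞) : WithTop ℕ∞) f ∧
      Set.InjOn f {x : Fin 4 → ℝ | ∑ i, x i ^ 2 = 1} ∧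
      (∀ x : Fin 4 → ℝ, ∑ i, x i ^ 2 = 1 →
        ∀ w : Fin 4 → ℝ, ∑ i, x i * w i = 0 → fderiv ℝ f x w = 0 → w = 0) ∧
      (∀ v : Fin 5 → ℝ, ∀ c : ℝ,
        IsPreconnected {x : Fin 4 → ℝ |
          ∑ i, x i ^ 2 = 1 ∧ c ≤ ∑ j, v j * f x j}) ∧
      ¬ ∃ v : Fin 5 → ℝ, v ≠ 0 ∧ ∃ c : ℝ,
        ∀ x : Fin 4 → ℝ, ∑ i, x i ^ 2 = 1 → ∑ j, v j * f x j = c :=
  ⟨Pool.Agent.MP_9de622_gt.graphMap, Pool.Agent.MP_9de622_gt.contDiff_graphMap,
    Pool.Agent.MP_9de622_gt.injective_graphMap.injOn,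
    fun x _ w _ h => Pool.Agent.MP_9de622_gt.fderiv_graphMap x w h,
    Pool.Agent.MP_9de622_gt.tpp_graphMap, Pool.Agent.MP_9de622_gt.substantial_graphMap⟩

end Pool.Agent.S13655
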