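import Pool.Statements.S14207
import Pool.Agent.Mg.F5f4cdd.Gce2fbb

set_option autoImplicit false
open MeasureTheory
open Pool Pool.MP_f27d50_gt

namespace Pool.Agent.S14207

/-- Any two convex bodies in 3-space with the same covariogram (volume of the body intersected with its translate by x, for every x) are translates of each other or of each other's point reflection. -/
theorem result :
    ∀ K L : Set (EuclideanSpace ℝ (Fin 3)),
      IsCompact K → Convex ℝ K → (interior K).Nonempty →
      IsCompact L → Convex ℝ L → (interior L).Nonempty →
      (∀ x : EuclideanSpace ℝ (Fin 3),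
        volume (K ∩ ((fun y => y + x) '' K)) = volume (L ∩ ((fun y => y + x) '' L))) →
      ∃ z : EuclideanSpace ℝ (Fin 3),
        (L = (fun y => y + z) '' K ∨ L = (fun y => z - y) '' K) := by
  exact Pool.Agent.MP_f27d50_gt.main_thm

end Pool.Agent.S14207
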