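import Pool.Statements.S15106
import Pool.Agent.MP_9c356a_lc.Binary

set_option autoImplicit false
open Pool Pool.MP_9c356a_lc

namespace Pool.Agent.S15106

/-- The negation of the preceding statement: For every D0L system over an n-letter alphabet, words w_m = h^m(w): if eventually w_m = w_{m-i_1}…w_{m-i_k} for some nonempty list of positive i_j, then such a formula exists with max i_j ≤ n!, and conversely. -/
theorem result :
    ¬ (∀ (n : ℕ) (h : Fin n → List (Fin n)) (w : List (Fin n)),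
    (∃ d : ℕ, ∃ L : List ℕ, ∃ N : ℕ, L ≠ [] ∧ (∀ i ∈ L, 0 < i) ∧ L.foldr max 0 = d ∧ d ≤ N ∧
        ∀ m : ℕ, N ≤ m →
          (fun u : List (Fin n) => u.flatMap h)^[m] w =
            (L.map (fun i => (fun u : List (Fin n) => u.flatMap h)^[m - i] w)).flatten) ↔
    (∃ d : ℕ, d ≤ n.factorial ∧ ∃ L : List ℕ, ∃ N : ℕ, L ≠ [] ∧ (∀ i ∈ L, 0 < i) ∧
        L.foldr max 0 = d ∧ d ≤ N ∧
        ∀ m : ℕ, N ≤ m →
          (fun u : List (Fin n) => u.flatMap h)^[m] w =
            (L.map (fun i => (fun u : List (Fin n) => u.flatMap h)^[m - i] w)).flatten)) := by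
  intro H
  have h := (H 2 Pool.Agent.MP_9c356a_lc.hb [0]).1
    ⟨3, [2, 3, 2, 2, 1], 3, by simp, by simp, by decide, le_rfl,
      fun m hm => Pool.Agent.MP_9c356a_lc.depth_three m hm⟩
  obtain ⟨d, hd, L, N, -, hpos, hmax, -, hm⟩ := h
  refine Pool.Agent.MP_9c356a_lc.not_depth_two L N hpos (fun i hi => ?_) hm
  have h1 := Pool.Agent.MP_9c356a_lc.le_foldr_max L i hi
  have h2 : Nat.factorial 2 = 2 := by decide
  omega

end Pool.Agent.S15106
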