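import Pool.Statements.S15487
import Pool.Agent.Mg.S15487.G4ab4b4

set_option autoImplicit false
open Pool Pool.MP_df6b17_lc

namespace Pool.Agent.S15487

/-- Every language of nonempty words recognized by a finite local group lies in every family closed under the +-variety operations that contains all such languages of the form P⁺ with P a finite prefix code. -/
theorem result :
    ∀ (W : (k : ℕ) → Set (Set (List (Fin k)))),
      (∀ k, (∅ : Set (List (Fin k))) ∈ W k) →
      (∀ k, ∀ L ∈ W k, {w : List (Fin k) | w ≠ [] ∧ w ∉ L} ∈ W k) →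
      (∀ k, ∀ L ∈ W k, ∀ K ∈ W k, L ∪ K ∈ W k) →
      (∀ k, ∀ L ∈ W k, ∀ u : List (Fin k),
          {w : List (Fin k) | w ≠ [] ∧ u ++ w ∈ L} ∈ W k ∧
          {w : List (Fin k) | w ≠ [] ∧ w ++ u ∈ L} ∈ W k) →
      (∀ (k m : ℕ) (φ : Fin m → List (Fin k)), (∀ a, φ a ≠ []) →
          ∀ L ∈ W k, {w : List (Fin m) | w ≠ [] ∧ w.flatMap φ ∈ L} ∈ W m) →
      (∀ (k : ℕ) (P : Finset (List (Fin k))),
          ([] : List (Fin k)) ∉ P →
          (∀ p ∈ P, ∀ q ∈ P, p <+: q → p = q) →
          (∃ (S : Type) (_ : Semigroup S) (_ : Finite S),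
              (∀ e : S, e * e = e → ∀ x : S, ∃ y : S,
                  (e * x * e) * (e * y * e) = e ∧ (e * y * e) * (e * x * e) = e) ∧
              ∃ φ : List (Fin k) → S,
                (∀ u v : List (Fin k), u ≠ [] → v ≠ [] → φ (u ++ v) = φ u * φ v) ∧
                ∃ X : Set S,
                  {w : List (Fin k) | ∃ l : List (List (Fin k)),
                      l ≠ [] ∧ (∀ p ∈ l, p ∈ P) ∧ w = l.flatten}
                    = {w : List (Fin k) | w ≠ [] ∧ φ w ∈ X}) →
          {w : List (Fin k) | ∃ l : List (List (Fin k)),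
              l ≠ [] ∧ (∀ p ∈ l, p ∈ P) ∧ w = l.flatten} ∈ W k) →
      ∀ (n : ℕ) (L : Set (List (Fin n))),
        (∃ (S : Type) (_ : Semigroup S) (_ : Finite S),
            (∀ e : S, e * e = e → ∀ x : S, ∃ y : S,
                (e * x * e) * (e * y * e) = e ∧ (e * y * e) * (e * x * e) = e) ∧
            ∃ φ : List (Fin n) → S,
              (∀ u v : List (Fin n), u ≠ [] → v ≠ [] → φ (u ++ v) = φ u * φ v) ∧
              ∃ X : Set S, L = {w : List (Fin n) | w ≠ [] ∧ φ w ∈ X}) →
        L ∈ W n := by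
  intro W h1 h2 h3 h4 h5 h6 n L hL
  exact Pool.Agent.MP_df6b17_lc.main ⟨h1, h2, h3, h4, h5, h6⟩ n L hL

end Pool.Agent.S15487
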