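import Pool.Statements.S16113
import Pool.Agent.Mg.F14ad9d.Gbc0ace

set_option autoImplicit false
open AlgebraicGeometry CategoryTheory NumberField
open Pool Pool.MP_14ad9d_nt

namespace Pool.Agent.S16113

/-- For every number field K there is a finite-type scheme X over the integers with infinitely many integer points, such that every point of X over the ring of integers of K comes from exactly one integer point. -/
theorem result :
    ∀ (K : Type) [Field K] [NumberField K],
      ∃ (X : Scheme.{0}) (f : X ⟶ Spec (CommRingCat.of ℤ)),
        LocallyOfFiniteType f ∧ QuasiCompact f ∧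
        Infinite (Spec (CommRingCat.of ℤ) ⟶ X) ∧
        Function.Bijective (fun g : Spec (CommRingCat.of ℤ) ⟶ X =>
          Spec.map (CommRingCat.ofHom (algebraMap ℤ (𝓞 K))) ≫ g) := by
  intro K _ _
  obtain ⟨X, f, h1, h2, -, h3⟩ := Pool.Agent.MP_14ad9d_nt.Full.top K
  exact ⟨X, f, h1, h2, h3⟩

end Pool.Agent.S16113
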