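import Pool.Statements.S17383
import Pool.Agent.MP_7119ff_nt.Varn

set_option autoImplicit false
open Pool Pool.MP_7119ff_nt

namespace Pool.Agent.S17383

/-- For any homogeneous linear equation with nonzero integer coefficients: if the largest subset of [N] free of distinct-variable solutions is not N^(1-o(1)), then some γ,C>0 make every A in [N] contain at least γ(∣A∣/N)^C N^(ℓ-1) solutions. -/
theorem result :
    ∀ (ℓ : ℕ) (c : Fin ℓ → ℤ), (∀ i, c i ≠ 0) →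
      ¬ (∀ δ : ℝ, 0 < δ → ∃ N₀ : ℕ, ∀ N : ℕ, N₀ ≤ N →
          ∃ A : Finset ℕ, A ⊆ Finset.Icc 1 N ∧ (N : ℝ) ^ (1 - δ) ≤ (A.card : ℝ) ∧
            ∀ x : Fin ℓ → ℕ, Function.Injective x → (∀ i, x i ∈ A) →
              ∑ i, c i * (x i : ℤ) ≠ 0) →
      ∃ γ C : ℝ, 0 < γ ∧ 0 < C ∧ ∀ N : ℕ, 1 ≤ N → ∀ A : Finset ℕ, A ⊆ Finset.Icc 1 N →
        γ * ((A.card : ℝ) / (N : ℝ)) ^ C * (N : ℝ) ^ ((ℓ : ℝ) - 1) ≤
          (((Fintype.piFinset (fun _ : Fin ℓ => A)).filter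
              (fun x => ∑ i, c i * (x i : ℤ) = 0)).card : ℝ) := by
  intro ℓ c hc h
  match ℓ, c, hc, h with
  | 0, c, _, _ =>
    refine ⟨1, 1, one_pos, one_pos, fun N hN A hA => ?_⟩
    have hNr : (1 : ℝ) ≤ N := by exact_mod_cast hN
    have hAc : A.card ≤ N := by
      have := Finset.card_le_card hA
      simpa using this
    have h1 : (A.card : ℝ) / N ≤ 1 := by
      rw [div_le_one (by linarith)]; exact_mod_cast hAc
    have h2 : (N : ℝ) ^ (((0 : ℕ) : ℝ) - 1) ≤ 1 :=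
      Real.rpow_le_one_of_one_le_of_nonpos hNr (by simp)
    have h3 : (0 : ℝ) ≤ (A.card : ℝ) / N := by positivity
    have h4 : (0 : ℝ) ≤ (N : ℝ) ^ (((0 : ℕ) : ℝ) - 1) := by positivity
    have h5 : (((Fintype.piFinset (fun _ : Fin 0 => A)).filter
        (fun x => ∑ i, c i * (x i : ℤ) = 0)).card : ℝ) = 1 := by simp
    rw [h5, Real.rpow_one, one_mul]
    exact mul_le_one₀ h1 h4 h2
  | 1, c, hc, h =>
    exact absurd (Pool.Agent.MP_7119ff_nt.avoid_of_sum_ne c (by simpa using hc 0)) h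
  | n + 2, c, hc, h =>
    obtain ⟨γ, C, hγ, hC, hmain⟩ :=
      Pool.Agent.MP_7119ff_nt.abundant_of_not_avoid hc ⟨0, 1, by simp⟩ h
    refine ⟨γ, C, hγ, by exact_mod_cast hC, fun N hN A hA => ?_⟩
    have hN0 : (0 : ℝ) < N := by exact_mod_cast hN
    have h1 := hmain N hN A hA
    rw [Fintype.card_fin] at h1
    rw [Real.rpow_natCast, Real.rpow_sub_one hN0.ne', Real.rpow_natCast, ← mul_div_assoc,
      div_le_iff₀ hN0, mul_comm _ (N : ℝ)]
    exact h1

end Pool.Agent.S17383
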