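import Pool.Statements.S18265
import Pool.Agent.MP_b86f6c_nt.Final

set_option autoImplicit false
open Pool Pool.MP_b86f6c_nt

namespace Pool.Agent.S18265

/-- For every ε>0 there is a real T-number ξ (transcendental, every w_n(ξ) finite, w_n(ξ)/n unbounded) such that only finitely many integer polynomials of degree ≤1 satisfy 0<∣P(ξ)∣≤H(P)^(-w) for each w>1+ε, i.e. w_1(ξ)≤1+ε. -/
theorem result :
    ∀ ε : ℝ, 0 < ε → ∃ ξ : ℝ, Transcendental ℤ ξ ∧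
      (∀ n : ℕ, ∃ W : ℝ,
        {P : Polynomial ℤ | P.natDegree ≤ n ∧ Polynomial.aeval ξ P ≠ 0 ∧
          |Polynomial.aeval ξ P| ≤
            ((P.support.sup (fun i => (P.coeff i).natAbs) : ℕ) : ℝ) ^ (-W)}.Finite) ∧
      (∀ M : ℝ, ∃ n : ℕ, 1 ≤ n ∧ ∃ w : ℝ, M * (n : ℝ) < w ∧
        {P : Polynomial ℤ | P.natDegree ≤ n ∧ Polynomial.aeval ξ P ≠ 0 ∧
          |Polynomial.aeval ξ P| ≤
            ((P.support.sup (fun i => (P.coeff i).natAbs) : ℕ) : ℝ) ^ (-w)}.Infinite) ∧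
      (∀ w : ℝ, 1 + ε < w →
        {P : Polynomial ℤ | P.natDegree ≤ 1 ∧ Polynomial.aeval ξ P ≠ 0 ∧
          |Polynomial.aeval ξ P| ≤
            ((P.support.sup (fun i => (P.coeff i).natAbs) : ℕ) : ℝ) ^ (-w)}.Finite) :=
  fun ε hε => Pool.Agent.MP_b86f6c_nt.main ε hε

end Pool.Agent.S18265
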