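import Pool.Statements.S19082
import Pool.Agent.MP_fdd1d3_nt.Assembly

set_option autoImplicit false
open N652c0427
open Filter
open Pool Pool.MP_fdd1d3_nt

namespace Pool.Agent.S19082

/-- The negation of the preceding statement: The least k∈ℕ with k·n+1 prime (Nat.nth … 0), cast to ℝ, is O(log n · log log n) as n→∞ along ℕ. -/
theorem result :
    ¬ ((fun n ↦ (a n : ℝ)) =O[atTop] (fun n ↦ Real.log n * Real.log (Real.log n))) := by
  intro h
  obtain ⟨c, hc⟩ := Asymptotics.isBigO_iff.1 h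
  obtain ⟨n0, hn0⟩ := Filter.eventually_atTop.1 hc
  obtain ⟨n, hn1, hn2⟩ := Pool.Agent.MP_fdd1d3_nt.unbounded c n0
  have h1 := hn0 n hn1
  rw [Real.norm_eq_abs, Real.norm_eq_abs, Nat.abs_cast] at h1
  exact absurd h1 (not_le.2 hn2)

end Pool.Agent.S19082
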