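import Pool.Statements.S19113
import Pool.Agent.Mg.S19113.G1a02ef
import Pool.Agent.Mg.S19113.Gcf95d3
import Pool.Agent.Mg.S19113.G2e4269
import Pool.Agent.Mg.S19113.Gb9d01c
import Pool.Agent.Mg.S19113.Ge48dc8

set_option autoImplicit false
open Pool Pool.MP_037c5a_pr

namespace Pool.Agent.S19113

/-- For planar Brownian motion, almost surely every quasisymmetric embedding of its trace on [0,1] into any metric space has image of Hausdorff dimension at least 2, i.e. the trace has conformal dimension 2. -/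
theorem result :
  ∀ (Ω : Type) [MeasurableSpace Ω] (P : MeasureTheory.Measure Ω)
    [MeasureTheory.IsProbabilityMeasure P] (B : Fin 2 → NNReal → Ω → ℝ),
    (∀ i ω, B i 0 ω = 0) →
    (∀ i ω, Continuous (fun t => B i t ω)) →
    (∀ i, ∀ s t : NNReal, s ≤ t →
      P.map (fun ω => B i t ω - B i s ω) = ProbabilityTheory.gaussianReal 0 (t - s)) →
    (∀ i (n : ℕ) (τ : Fin (n + 1) → NNReal), Monotone τ →
      ProbabilityTheory.iIndepFun
        (fun (k : Fin n) (ω : Ω) => B i (τ k.succ) ω - B i (τ k.castSucc) ω) P) →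
    ProbabilityTheory.IndepFun (fun ω t => B 0 t ω) (fun ω t => B 1 t ω) P →
    ∀ᵐ ω ∂P, ∀ S : Set (EuclideanSpace ℝ (Fin 2)),
      S = (fun t : NNReal => (WithLp.toLp 2 (fun i => B i t ω) : EuclideanSpace ℝ (Fin 2)))
            '' Set.Icc 0 1 →
      ∀ (Y : Type) [MetricSpace Y] (f : S → Y) (η : ℝ → ℝ),
        Function.Injective f →
        StrictMonoOn η (Set.Ici 0) →
        ContinuousOn η (Set.Ici 0) →
        η 0 = 0 →
        Filter.Tendsto η Filter.atTop Filter.atTop →
        (∀ x a b : S, a ≠ b →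
          dist (f x) (f a) ≤ η (dist x a / dist b a) * dist (f b) (f a)) →
        (2 : ENNReal) ≤ dimH (Set.range f) := by
  exact Pool.Agent.MP_037c5a_pr.final_of Pool.Agent.MP_037c5a_pr.stmtDet
    (Pool.Agent.MP_037c5a_pr.stmtProb_of Pool.Agent.MP_037c5a_pr.stmtEnergy Pool.Agent.MP_037c5a_pr.stmtConc
      Pool.Agent.MP_037c5a_pr.stmtChain Pool.Agent.MP_037c5a_pr.stmtSplit
      (Pool.Agent.MP_037c5a_pr.stmtMom_of Pool.Agent.MP_037c5a_pr.stmtChain))

end Pool.Agent.S19113
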