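import Pool.Statements.S19483
import Pool.Agent.Mg.S19483.G11beb3
import Pool.Agent.Mg.S19483.G2d2f3f
import Pool.Agent.Mg.S19483.G391b6c
import Pool.Agent.Mg.S19483.G8e168a

set_option autoImplicit false
open MeasureTheory
open Pool Pool.MP_93f6c7_pr

namespace Pool.Agent.S19483

/-- For every Δ ≥ 3, the Δ-regular tree has a measurable, automorphism-equivariant map from iid uniform [0,1] vertex labels to Δ-colourings of edges that is almost surely a proper edge colouring. -/
theorem result :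
    ∀ (Δ : ℕ), 3 ≤ Δ → ∀ (V : Type) (G : SimpleGraph V), G.IsTree →
      (∀ v : V, (G.neighborSet v).ncard = Δ) →
      ∃ F : (V → unitInterval) → (Sym2 V → Fin Δ),
        Measurable F ∧
        (∀ (φ : G ≃g G) (x : V → unitInterval) (e : Sym2 V),
          F (fun i : V => x ((⇑φ) i)) e = F x (Sym2.map (⇑φ) e)) ∧
        ∀ᵐ x ∂(Measure.infinitePi (fun _ : V => (volume : Measure unitInterval))),
          ∀ u v w : V, G.Adj u v → G.Adj u w → v ≠ w →
            F x s(u, v) ≠ F x s(u, w) := by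
  refine Pool.Agent.MP_93f6c7_pr.final_of_improve fun V _ _ _ G _ Δ h => ?_
  have hs := Pool.Agent.MP_93f6c7_pr.hasSwaps h
  refine ⟨hs, fun o => Pool.Agent.MP_93f6c7_pr.improve_of_run h hs o ?_⟩
  exact Pool.Agent.MP_93f6c7_pr.runStmt h hs o (Pool.Agent.MP_93f6c7_pr.flipStmt h hs o)
    (Pool.Agent.MP_93f6c7_pr.l2Stmt h hs o (Pool.Agent.MP_93f6c7_pr.hasGap h hs o))

end Pool.Agent.S19483
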