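import Pool.Statements.S19600
import Pool.Agent.Mg.S19600.G3216b3

set_option autoImplicit false
open MeasureTheory ProbabilityTheory
open Pool Pool.MP_ba6658_pr

namespace Pool.Agent.S19600

/-- The negation of the preceding statement: For d = 2 or 3, any continuous d-dimensional two-parameter Brownian sheet almost surely has, for every s>0 simultaneously, only finitely many t>0 with B(s,t)=0. -/
theorem result :
    ¬ (∀ d : ℕ, (d = 2 ∨ d = 3) →
    ∀ (Ω : Type) [MeasurableSpace Ω] (P : Measure Ω) [IsProbabilityMeasure P]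
      (B : Fin d → ℝ → ℝ → Ω → ℝ),
      (∀ (i : Fin d) (ω : Ω),
        ContinuousOn (fun p : ℝ × ℝ => B i p.1 p.2 ω) {p : ℝ × ℝ | 0 ≤ p.1 ∧ 0 ≤ p.2}) →
      (∀ (n : ℕ) (idx : Fin n → Fin d) (s t c : Fin n → ℝ),
        (∀ k, 0 ≤ s k) → (∀ k, 0 ≤ t k) →
        P.map (fun ω => ∑ k, c k * B (idx k) (s k) (t k) ω) =
          gaussianReal 0
            (∑ k, ∑ l, (if idx k = idx l then
              c k * c l * (min (s k) (s l) * min (t k) (t l)) else 0)).toNNReal) →
      ∀ᵐ ω ∂P, ∀ s : ℝ, 0 < s →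
        Set.Finite {t : ℝ | 0 < t ∧ ∀ i : Fin d, B i s t ω = 0}) := by
  intro H
  exact Pool.Agent.MP_ba6658_pr.not_ae_finite
    (H 2 (Or.inl rfl) _ (Pool.Agent.MP_ba6658_pr.gaussPi (Pool.Agent.MP_ba6658_pr.Idx 2))
      Pool.Agent.MP_ba6658_pr.sheet
      (fun i ω => (Pool.Agent.MP_ba6658_pr.sheet_cont i ω).continuousOn)
      (fun n idx s t c hs ht => Pool.Agent.MP_ba6658_pr.sheet_law n idx s t c hs ht))

end Pool.Agent.S19600
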